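import Pool.Agent.E8helper19.QC.Stm

/-! # QC8d: large times -/

set_option autoImplicit false

open MeasureTheory Filter Topology SchwartzMap FourierTransform
open scoped ContDiff ENNReal Real Convolution

namespace Pool.Agent.E8helper71.QC

open Pool.Agent.E8helper19.QC

noncomputable section

lemma pow_gauss (c : ℝ) (hc : 0 < c) (M : ℕ) : ∃ C : ℝ, 0 ≤ C ∧ ∀ r : ℝ, 0 ≤ r →
    (1 + r) ^ M * Real.exp (-c * r ^ 2) ≤ C := by
  obtain ⟨a, ha⟩ : ∃ a : ℝ, a = c / (M + 1) := ⟨_, rfl⟩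
  have ha0 : 0 < a := by rw [ha]; positivity
  have hMa : M * a ≤ c := by
    rw [ha, mul_div_assoc', div_le_iff₀ (by positivity)]
    nlinarith
  refine ⟨(2 + 1 / a) ^ M, by positivity, fun r hr => ?_⟩
  have h1 : 1 + r ≤ (2 + 1 / a) * Real.exp (a * r ^ 2) := by
    have h2 : a * r ^ 2 + 1 ≤ Real.exp (a * r ^ 2) := Real.add_one_le_exp _
    have h3 : 1 + r ≤ (2 + 1 / a) * (a * r ^ 2 + 1) := by
      have e : (2 + 1 / a) * (a * r ^ 2 + 1) = 2 * a * r ^ 2 + 2 + r ^ 2 + 1 / a := by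
        field_simp
        ring
      rw [e]
      have : 0 < 1 / a := by positivity
      nlinarith [sq_nonneg (r - 1), mul_nonneg ha0.le (sq_nonneg r)]
    exact h3.trans (by gcongr)
  have h4 : (1 + r) ^ M ≤ (2 + 1 / a) ^ M * Real.exp (c * r ^ 2) := by
    calc (1 + r) ^ M ≤ ((2 + 1 / a) * Real.exp (a * r ^ 2)) ^ M := by gcongr
      _ = (2 + 1 / a) ^ M * Real.exp (M * (a * r ^ 2)) := by rw [mul_pow, ← Real.exp_nat_mul]
      _ ≤ _ := by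
        have : M * (a * r ^ 2) ≤ c * r ^ 2 := by
          rw [← mul_assoc]
          exact mul_le_mul_of_nonneg_right hMa (sq_nonneg r)
        gcongr
  calc _ ≤ (2 + 1 / a) ^ M * Real.exp (c * r ^ 2) * Real.exp (-c * r ^ 2) := by gcongr
    _ = _ := by
      rw [mul_assoc, ← Real.exp_add]
      simp

/-- the gaussian -/
def gau (n : ℕ) : 𝓢(E n, ℝ) where
  toFun x := Real.exp (-(4 * π ^ 2) * ‖x‖ ^ 2)
  smooth' := by
    have h : ContDiff ℝ ∞ fun x : E n => ‖x‖ ^ 2 := contDiff_norm_sq ℝ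
    exact (contDiff_const.mul h).exp
  decay' := by
    intro m j
    have hc : (0 : ℝ) < 4 * π ^ 2 := by positivity
    obtain ⟨l, C, hC, hb⟩ := (Function.hasTemperateGrowth_norm_sq (E n)).norm_iteratedFDeriv_le_uniform j
    obtain ⟨A, hA, hg⟩ := pow_gauss (4 * π ^ 2) hc (m + l * j)
    refine ⟨(Nat.factorial j : ℝ) * (1 + 4 * π ^ 2) ^ j * (C + 1) ^ j * A, fun x => ?_⟩
    have h1 : ‖iteratedFDeriv ℝ j ((fun s : ℝ => Real.exp (-(4 * π ^ 2) * s)) ∘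
        fun x : E n => ‖x‖ ^ 2) x‖ ≤ (Nat.factorial j : ℝ) * ((1 + 4 * π ^ 2) ^ j *
          Real.exp (-(4 * π ^ 2) * ‖x‖ ^ 2)) * ((C + 1) * (1 + ‖x‖) ^ l) ^ j := by
      refine norm_iteratedFDeriv_comp_le (N := ∞) ?_ (contDiff_norm_sq ℝ) (mod_cast le_top) x ?_ ?_
      · exact (contDiff_const.mul contDiff_id).exp
      · intro i hi
        rw [norm_iteratedFDeriv_eq_norm_iteratedDeriv, iteratedDeriv_exp_const_mul]
        dsimp only
        rw [norm_mul, norm_pow, norm_neg, Real.norm_of_nonneg hc.le,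
          Real.norm_of_nonneg (Real.exp_pos _).le]
        refine mul_le_mul_of_nonneg_right ?_ (Real.exp_pos _).le
        calc (4 * π ^ 2) ^ i ≤ (1 + 4 * π ^ 2) ^ i := by gcongr; linarith
          _ ≤ _ := pow_le_pow_right₀ (by linarith) hi
      · intro i hi1 hi
        refine (hb i hi x).trans ?_
        have h2 : (1 : ℝ) ≤ (1 + ‖x‖) ^ l := one_le_pow₀ (by linarith [norm_nonneg x])
        have h3 : (1 : ℝ) ≤ (C + 1) * (1 + ‖x‖) ^ l := by nlinarith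
        calc C * (1 + ‖x‖) ^ l ≤ (C + 1) * (1 + ‖x‖) ^ l := by gcongr; linarith
          _ ≤ _ := le_self_pow₀ h3 (by omega)
    have h5 := hg ‖x‖ (norm_nonneg x)
    calc ‖x‖ ^ m * _ ≤ (1 + ‖x‖) ^ m * ((Nat.factorial j : ℝ) * ((1 + 4 * π ^ 2) ^ j *
          Real.exp (-(4 * π ^ 2) * ‖x‖ ^ 2)) * ((C + 1) * (1 + ‖x‖) ^ l) ^ j) := by
          gcongr
          · linarith
          · exact h1
      _ = (Nat.factorial j : ℝ) * (1 + 4 * π ^ 2) ^ j * (C + 1) ^ j * ((1 + ‖x‖) ^ (m + l * j) *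
          Real.exp (-(4 * π ^ 2) * ‖x‖ ^ 2)) := by
          rw [mul_pow, ← pow_mul, pow_add]
          ring
      _ ≤ _ := by gcongr

lemma temp_pow (n k : ℕ) :
    Function.HasTemperateGrowth fun x : E n => (((2 * π * ‖x‖) ^ (2 * k) : ℝ)) := by
  have h : (fun x : E n => (((2 * π * ‖x‖) ^ (2 * k) : ℝ))) =
      fun x => ((4 * π ^ 2) * ‖x‖ ^ 2) ^ k := by
    funext x
    rw [pow_mul]
    congr 1
    ring
  rw [h]
  exact ((Function.HasTemperateGrowth.const _).mul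
    (Function.hasTemperateGrowth_norm_sq (E n))).pow k

/-- the profile -/
def Qs (n k : ℕ) : 𝓢(E n, ℂ) :=
  postcompCLM (𝕜 := ℝ) Complex.ofRealCLM
    (smulLeftCLM ℝ (fun x : E n => (((2 * π * ‖x‖) ^ (2 * k) : ℝ))) (gau n))

lemma Qs_apply (n k : ℕ) (x : E n) :
    Qs n k x = (((2 * π * ‖x‖) ^ (2 * k) * Real.exp (-(4 * π ^ 2) * ‖x‖ ^ 2) : ℝ) : ℂ) := by
  unfold Qs
  rw [postcompCLM_apply, smulLeftCLM_apply_apply (temp_pow n k)]
  rfl

/-- the profile at time `t` -/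
def Qt (n k : ℕ) (t : ℝ) (ht : 0 < t) : 𝓢(E n, ℂ) :=
  ((t ^ k)⁻¹ : ℝ) • compCLM ℝ (g := fun x : E n => √t • x)
    ((√t • ContinuousLinearMap.id ℝ (E n)).hasTemperateGrowth)
    ⟨1, (√t)⁻¹, fun x => by
      have h : 0 < √t := Real.sqrt_pos.2 ht
      rw [pow_one, norm_smul, Real.norm_of_nonneg h.le, mul_add, mul_one,
        inv_mul_cancel_left₀ h.ne']
      have := inv_pos.2 h
      linarith⟩ (Qs n k)

lemma Qt_apply (n k : ℕ) (t : ℝ) (ht : 0 < t) (x : E n) :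
    Qt n k t ht x = ((t ^ k)⁻¹ : ℝ) • Qs n k (√t • x) := by
  rfl

lemma Qt_apply' (n k : ℕ) (t : ℝ) (ht : 0 < t) (x : E n) :
    Qt n k t ht x = (((2 * π * ‖x‖) ^ (2 * k) * Real.exp (-(4 * π ^ 2 * t * ‖x‖ ^ 2)) : ℝ) : ℂ) := by
  have hs : 0 < √t := Real.sqrt_pos.2 ht
  rw [Qt_apply, Qs_apply, Complex.real_smul, ← Complex.ofReal_mul]
  congr 1
  rw [norm_smul, Real.norm_of_nonneg hs.le]
  have e1 : (2 * π * (√t * ‖x‖)) ^ (2 * k) = t ^ k * (2 * π * ‖x‖) ^ (2 * k) := by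
    rw [show 2 * π * (√t * ‖x‖) = √t * (2 * π * ‖x‖) by ring, mul_pow, pow_mul (√t),
      Real.sq_sqrt ht.le]
  have e2 : -(4 * π ^ 2) * (√t * ‖x‖) ^ 2 = -(4 * π ^ 2 * t * ‖x‖ ^ 2) := by
    rw [mul_pow, Real.sq_sqrt ht.le]
    ring
  rw [e1, e2]
  field_simp

lemma wint {n : ℕ} (f : 𝓢(E n, ℂ)) (m : ℕ) :
    Integrable fun x => (1 + ‖x‖) ^ m * ‖f x‖ := by
  have h1 : Integrable fun x => 2 ^ (m - 1) * (‖f x‖ + ‖x‖ ^ m * ‖f x‖) :=
    (f.integrable.norm.add (f.integrable_pow_mul volume m)).const_mul _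
  refine h1.mono' ?_ (Eventually.of_forall fun x => ?_)
  · exact (((continuous_const.add continuous_norm).pow m).mul f.continuous.norm).aestronglyMeasurable
  · rw [Real.norm_of_nonneg (by positivity)]
    have h2 : (1 + ‖x‖) ^ m ≤ 2 ^ (m - 1) * (1 ^ m + ‖x‖ ^ m) :=
      add_pow_le zero_le_one (norm_nonneg x) m
    calc (1 + ‖x‖) ^ m * ‖f x‖ ≤ 2 ^ (m - 1) * (1 ^ m + ‖x‖ ^ m) * ‖f x‖ := by gcongr
      _ = _ := by rw [one_pow]; ring

/-- the scaling of the kernel -/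
lemma scal (n k : ℕ) (t : ℝ) (ht : 0 < t) (z : E n) :
    (𝓕⁻ (Qt n k t ht)) z = ((t ^ k)⁻¹ * (√t ^ n)⁻¹ : ℝ) • (𝓕⁻ (Qs n k)) ((√t)⁻¹ • z) := by
  have hs : 0 < √t := Real.sqrt_pos.2 ht
  rw [fourierInv_coe, fourierInv_coe, Real.fourierInv_eq, Real.fourierInv_eq]
  obtain ⟨F, hF⟩ : ∃ F : E n → ℂ, ∀ w, F w =
      Real.fourierChar (inner ℝ w ((√t)⁻¹ • z)) • Qs n k w := ⟨_, fun _ => rfl⟩
  have h1 : ∀ v : E n, Real.fourierChar (inner ℝ v z) • Qt n k t ht v =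
      ((t ^ k)⁻¹ : ℝ) • F (√t • v) := by
    intro v
    rw [hF, Qt_apply, inner_smul_left, inner_smul_right, smul_comm]
    congr 3
    simp only [conj_trivial]
    rw [mul_inv_cancel_left₀ hs.ne']
  simp only [h1, ← hF]
  rw [integral_smul, Measure.integral_comp_smul_of_nonneg volume F _ (hR := hs.le),
    finrank_euclideanSpace_fin, smul_smul]

/-- the kernel bound -/
lemma kern (n k : ℕ) (t : ℝ) (ht : 1 ≤ t) :
    ∫ z, (1 + ‖z‖) ^ (2 * k) * ‖(𝓕⁻ (Qt n k t (by linarith))) z‖ ≤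
      ∫ z, (1 + ‖z‖) ^ (2 * k) * ‖(𝓕⁻ (Qs n k)) z‖ := by
  have ht0 : 0 < t := by linarith
  have hs : 0 < √t := Real.sqrt_pos.2 ht0
  have hs1 : 1 ≤ √t := Real.one_le_sqrt.2 ht
  obtain ⟨F, hF⟩ : ∃ F : E n → ℝ, ∀ w, F w =
      (1 + ‖√t • w‖) ^ (2 * k) * ‖(𝓕⁻ (Qs n k)) w‖ := ⟨_, fun _ => rfl⟩
  have h1 : ∀ z : E n, (1 + ‖z‖) ^ (2 * k) * ‖(𝓕⁻ (Qt n k t (by linarith))) z‖ =
      ((t ^ k)⁻¹ * (√t ^ n)⁻¹) * F ((√t)⁻¹ • z) := by
    intro z
    rw [hF, scal n k t ht0, norm_smul, Real.norm_of_nonneg (by positivity),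
      smul_inv_smul₀ hs.ne']
    ring
  simp only [h1]
  rw [integral_const_mul, Measure.integral_comp_smul_of_nonneg volume F _
    (hR := (inv_pos.2 hs).le), finrank_euclideanSpace_fin, smul_eq_mul, inv_pow, inv_inv]
  have h2 : (t ^ k)⁻¹ * (√t ^ n)⁻¹ * (√t ^ n * ∫ x, F x) =
      ∫ x : E n, (t ^ k)⁻¹ * ((1 + ‖√t • x‖) ^ (2 * k) * ‖(𝓕⁻ (Qs n k)) x‖) := by
    simp only [← hF]
    rw [integral_const_mul]
    field_simp
  rw [h2]
  refine integral_mono_of_nonneg (Eventually.of_forall fun x => by positivity)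
    (wint (𝓕⁻ (Qs n k)) (2 * k)) (Eventually.of_forall fun x => ?_)
  dsimp only
  have h3 : (1 + ‖√t • x‖) ^ (2 * k) ≤ t ^ k * (1 + ‖x‖) ^ (2 * k) := by
    have e : t ^ k * (1 + ‖x‖) ^ (2 * k) = (√t * (1 + ‖x‖)) ^ (2 * k) := by
      rw [mul_pow, pow_mul (√t), Real.sq_sqrt ht0.le]
    rw [e, norm_smul, Real.norm_of_nonneg hs.le]
    gcongr
    nlinarith [norm_nonneg x]
  calc _ ≤ (t ^ k)⁻¹ * (t ^ k * (1 + ‖x‖) ^ (2 * k) * ‖(𝓕⁻ (Qs n k)) x‖) := by gcongr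
    _ = _ := by field_simp

/-- the heat flow of `(-Δ)^k φ` is a convolution -/
lemma heat_eq {n k : ℕ} {φ ψ : 𝓢(E n, ℂ)} (h : IsLap k φ ψ) (t : ℝ) (ht : 0 < t) (x : E n) :
    Heat n t ψ x =
      SchwartzMap.convolution (ContinuousLinearMap.mul ℂ ℂ) (𝓕⁻ (Qt n k t ht)) φ x := by
  have h1 : SchwartzMap.convolution (ContinuousLinearMap.mul ℂ ℂ) (𝓕⁻ (Qt n k t ht)) φ =
      𝓕⁻ (pairing (ContinuousLinearMap.mul ℂ ℂ) (Qt n k t ht) (𝓕 φ)) := by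
    have h2 : 𝓕 (𝓕⁻ (Qt n k t ht)) = Qt n k t ht := fourier_fourierInv_eq _
    show 𝓕⁻ (pairing (ContinuousLinearMap.mul ℂ ℂ) (𝓕 (𝓕⁻ (Qt n k t ht))) (𝓕 φ)) = _
    rw [h2]
  rw [h1, fourierInv_coe]
  unfold Heat
  refine congrFun (congrArg _ ?_) x
  funext ξ
  rw [pairing_apply_apply, Qt_apply', h ξ, fourier_coe]
  rw [ContinuousLinearMap.mul_apply']
  push_cast
  ring

/-- QC8d -/
theorem t_LRG : S_LRG := by
  intro n k φ ψ h
  refine ⟨(∫ z, (1 + ‖z‖) ^ (2 * k) * ‖(𝓕⁻ (Qs n k)) z‖) *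
    ∫ z, (1 + ‖z‖) ^ (2 * k) * ‖φ z‖, fun t ht => ?_⟩
  have ht0 : 0 < t := by linarith
  have he : ∀ x, Heat n t ψ x = SchwartzMap.convolution (ContinuousLinearMap.mul ℂ ℂ)
    (𝓕⁻ (Qt n k t ht0)) φ x := heat_eq h t ht0
  simp only [he]
  refine ⟨wint _ _, ?_⟩
  set H := 𝓕⁻ (Qt n k t ht0) with hH
  set A : E n → ℝ := fun y => (1 + ‖y‖) ^ (2 * k) * ‖H y‖ with hA
  set B : E n → ℝ := fun y => (1 + ‖y‖) ^ (2 * k) * ‖φ y‖ with hB
  have hAi : Integrable A := wint H _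
  have hBi : Integrable B := wint φ _
  have h1 : ∫ x, (A ⋆[ContinuousLinearMap.mul ℝ ℝ] B) x = (∫ x, A x) * ∫ x, B x := by
    rw [integral_convolution (L := ContinuousLinearMap.mul ℝ ℝ) hAi hBi]
    rfl
  have h2 : ∫ x, (1 + ‖x‖) ^ (2 * k) *
      ‖SchwartzMap.convolution (ContinuousLinearMap.mul ℂ ℂ) H φ x‖ ≤
      ∫ x, (A ⋆[ContinuousLinearMap.mul ℝ ℝ] B) x := by
    refine integral_mono_of_nonneg (Eventually.of_forall fun x => by positivity)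
      (hAi.integrable_convolution _ hBi) ?_
    filter_upwards [hAi.ae_convolution_exists (ContinuousLinearMap.mul ℝ ℝ) hBi] with x hx
    rw [SchwartzMap.convolution_apply]
    have h3 : ‖((H : E n → ℂ) ⋆[ContinuousLinearMap.mul ℂ ℂ] (φ : E n → ℂ)) x‖ ≤
        ∫ y, ‖H y‖ * ‖φ (x - y)‖ := by
      unfold MeasureTheory.convolution
      refine (norm_integral_le_integral_norm _).trans_eq (integral_congr_ae ?_)
      refine Eventually.of_forall fun y => ?_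
      dsimp only
      rw [ContinuousLinearMap.mul_apply', norm_mul]
    calc (1 + ‖x‖) ^ (2 * k) * _ ≤ (1 + ‖x‖) ^ (2 * k) * ∫ y, ‖H y‖ * ‖φ (x - y)‖ := by gcongr
      _ = ∫ y, (1 + ‖x‖) ^ (2 * k) * (‖H y‖ * ‖φ (x - y)‖) := by rw [integral_const_mul]
      _ ≤ _ := by
        unfold MeasureTheory.convolution
        refine integral_mono_of_nonneg (Eventually.of_forall fun y => by positivity) hx
          (Eventually.of_forall fun y => ?_)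
        dsimp only [hA, hB]
        rw [ContinuousLinearMap.mul_apply']
        have h4 : 1 + ‖x‖ ≤ (1 + ‖y‖) * (1 + ‖x - y‖) := by
          have : ‖x‖ ≤ ‖y‖ + ‖x - y‖ := by
            calc ‖x‖ = ‖y + (x - y)‖ := by rw [add_sub_cancel]
              _ ≤ _ := norm_add_le _ _
          nlinarith [norm_nonneg y, norm_nonneg (x - y)]
        calc (1 + ‖x‖) ^ (2 * k) * (‖H y‖ * ‖φ (x - y)‖)
            ≤ ((1 + ‖y‖) * (1 + ‖x - y‖)) ^ (2 * k) * (‖H y‖ * ‖φ (x - y)‖) := by gcongr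
          _ = _ := by rw [mul_pow]; ring
  refine h2.trans ?_
  rw [h1]
  have h5 := kern n k t ht
  have h6 : 0 ≤ ∫ x, B x := integral_nonneg fun x => by positivity
  exact mul_le_mul_of_nonneg_right h5 h6

end

end Pool.Agent.E8helper71.QC
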